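import Pool.Agent.H31.F5.Plane

/-!
# The plane lemma for derivatives of higher order

`dpl`: the derivative of a polynomial in two variables in a direction. `itd_small`: if the
derivatives of order `j₀` along `D + 1` separated lines are small at `D + 1` separated points of
each line, then all derivatives of order `≥ j₀` are small.
`plane_it`, `plane_hs`: the same for a polynomial on a plane; `plane_hs` is the case `j₀ = 2`.
-/

set_option autoImplicit false

namespace Pool.F5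

open Finset Real MvPolynomial
open Pool.D2R (dd hs)

/-! ### Two variables -/

/-- The derivative in the direction `(a, b)`. -/
noncomputable def dpl (a b : ℝ) (P : MvPolynomial (Fin 2) ℝ) : MvPolynomial (Fin 2) ℝ :=
  C a * pderiv 0 P + C b * pderiv 1 P

theorem dpl_eval (a b α β : ℝ) (P : MvPolynomial (Fin 2) ℝ) :
    eval ![α, β] (dpl a b P) = dq P α β a b := by
  unfold dpl dq
  rw [map_add, map_mul, map_mul, eval_C, eval_C]
  ring

/-- The restriction to a line through the origin. -/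
noncomputable def lpo (a b : ℝ) (P : MvPolynomial (Fin 2) ℝ) : Polynomial ℝ :=
  aeval ![Polynomial.C a * Polynomial.X, Polynomial.C b * Polynomial.X] P

theorem lpo_eval (a b τ : ℝ) (P : MvPolynomial (Fin 2) ℝ) :
    (lpo a b P).eval τ = eval ![τ * a, τ * b] P := by
  unfold lpo
  induction P using MvPolynomial.induction_on with
  | C c =>
    rw [aeval_C, eval_C]
    exact Polynomial.eval_C
  | add p q hp hq => rw [map_add, map_add, Polynomial.eval_add, hp, hq]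
  | mul_X p j hp =>
    rw [map_mul, map_mul, Polynomial.eval_mul, hp, aeval_X, eval_X]
    congr 1
    fin_cases j
    · change (Polynomial.C a * Polynomial.X).eval τ = τ * a
      rw [Polynomial.eval_mul, Polynomial.eval_C, Polynomial.eval_X, mul_comm]
    · change (Polynomial.C b * Polynomial.X).eval τ = τ * b
      rw [Polynomial.eval_mul, Polynomial.eval_C, Polynomial.eval_X, mul_comm]

variable {D : ℕ} {P : MvPolynomial (Fin 2) ℝ}

/-- The restriction to the line, by its homogeneous parts. -/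
theorem lpo_sum (hP : P.totalDegree ≤ D) (a b : ℝ) :
    lpo a b P = ∑ k ∈ range (D + 1), Polynomial.monomial k (hk P k a b) := by
  refine Polynomial.funext fun τ => ?_
  rw [lpo_eval, Polynomial.eval_finsetSum, eval2]
  have h1 : ∀ k ∈ range (D + 1), (Polynomial.monomial k (hk P k a b)).eval τ =
      ∑ s ∈ P.support with s 0 + s 1 = k, P.coeff s * ((τ * a) ^ (s 0) * (τ * b) ^ (s 1)) := by
    intro k _
    rw [Polynomial.eval_monomial]
    unfold hk
    rw [Finset.sum_mul]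
    refine Finset.sum_congr rfl fun s hs => ?_
    rw [← (Finset.mem_filter.1 hs).2, mul_pow, mul_pow, pow_add]
    ring
  rw [Finset.sum_congr rfl h1, Finset.sum_fiberwise_of_maps_to (s := P.support)
    (t := range (D + 1)) (g := fun s => s 0 + s 1) (fun s hs => Finset.mem_range.2 (by
      have := deg2 hP hs
      omega))]

theorem lpo_coeff (hP : P.totalDegree ≤ D) (a b : ℝ) {k : ℕ} (hkD : k ≤ D) :
    (lpo a b P).coeff k = hk P k a b := by
  rw [lpo_sum hP, Polynomial.finsetSum_coeff, Finset.sum_eq_single k]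
  · rw [Polynomial.coeff_monomial, if_pos rfl]
  · intro k' _ hne
    rw [Polynomial.coeff_monomial, if_neg hne]
  · intro h
    exact absurd (Finset.mem_range.2 (by omega)) h

theorem lpo_deg (hP : P.totalDegree ≤ D) (a b : ℝ) : (lpo a b P).natDegree ≤ D := by
  rw [lpo_sum hP]
  refine Polynomial.natDegree_sum_le_of_forall_le _ _ fun k hk => ?_
  refine (Polynomial.natDegree_monomial_le _).trans ?_
  have := Finset.mem_range.1 hk
  omega

theorem lpo_der (a b : ℝ) (P : MvPolynomial (Fin 2) ℝ) :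
    Polynomial.derivative (lpo a b P) = lpo a b (dpl a b P) := by
  unfold lpo dpl
  rw [Pool.GEN.der_aevalσ, Fin.sum_univ_two, map_add, map_mul, map_mul]
  have e0 : (![Polynomial.C a * Polynomial.X, Polynomial.C b * Polynomial.X] :
      Fin 2 → Polynomial ℝ) 0 = Polynomial.C a * Polynomial.X := rfl
  have e1 : (![Polynomial.C a * Polynomial.X, Polynomial.C b * Polynomial.X] :
      Fin 2 → Polynomial ℝ) 1 = Polynomial.C b * Polynomial.X := rfl
  have hC : ∀ (c : ℝ), (aeval ![Polynomial.C a * Polynomial.X, Polynomial.C b * Polynomial.X]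
      (C c : MvPolynomial (Fin 2) ℝ) : Polynomial ℝ) = Polynomial.C c := fun c => by
    rw [aeval_C]
    rfl
  rw [e0, e1, hC, hC]
  simp only [Polynomial.derivative_mul, Polynomial.derivative_C, Polynomial.derivative_X]
  ring

theorem lpo_it (a b : ℝ) (j : ℕ) : ∀ P : MvPolynomial (Fin 2) ℝ,
    Polynomial.derivative^[j] (lpo a b P) = lpo a b ((dpl a b)^[j] P) := by
  induction j with
  | zero => exact fun P => rfl
  | succ j ih =>
    intro P
    rw [Function.iterate_succ_apply, Function.iterate_succ_apply, lpo_der, ih]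

theorem pd_deg2 (hP : P.totalDegree ≤ D) (i : Fin 2) : (pderiv i P).totalDegree ≤ D := by
  classical
  refine Finset.sup_le fun s hs => ?_
  rw [mem_support_iff, coeff_pderiv] at hs
  have h2 := deg2 hP (mem_support_iff.2 (left_ne_zero_of_mul hs))
  have h3 : s 0 + s 1 ≤ (s + Finsupp.single i 1 : Fin 2 →₀ ℕ) 0 +
      (s + Finsupp.single i 1 : Fin 2 →₀ ℕ) 1 := by
    simp only [Finsupp.coe_add, Pi.add_apply]
    omega
  rw [Finsupp.sum_fintype _ _ (fun _ => rfl), Fin.sum_univ_two]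
  omega

theorem dpl_deg (hP : P.totalDegree ≤ D) (a b : ℝ) : (dpl a b P).totalDegree ≤ D := by
  unfold dpl
  refine (totalDegree_add _ _).trans (max_le ?_ ?_)
  · refine (totalDegree_mul _ _).trans ?_
    rw [totalDegree_C, zero_add]
    exact pd_deg2 hP 0
  · refine (totalDegree_mul _ _).trans ?_
    rw [totalDegree_C, zero_add]
    exact pd_deg2 hP 1

theorem dpl_it_deg (a b : ℝ) (j : ℕ) : ∀ P : MvPolynomial (Fin 2) ℝ, P.totalDegree ≤ D →
    ((dpl a b)^[j] P).totalDegree ≤ D := by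
  induction j with
  | zero => exact fun P hP => hP
  | succ j ih =>
    intro P hP
    rw [Function.iterate_succ_apply]
    exact ih _ (dpl_deg hP a b)

/-- Small derivatives of order `j₀` along a line: small homogeneous parts of order `≥ j₀`. -/
theorem hk_lineJ (hP : P.totalDegree ≤ D) (a b : ℝ) (τ : Fin (D + 1) → ℝ) {mu eps : ℝ}
    (hmu : 0 < mu) (hmu1 : mu ≤ 1) (hτ : ∀ i, |τ i| ≤ 1) (hsep : ∀ i j, i ≠ j → mu ≤ |τ i - τ j|)
    {j₀ : ℕ} (h : ∀ i, |eval ![τ i * a, τ i * b] ((dpl a b)^[j₀] P)| ≤ eps) {k : ℕ}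
    (hk0 : j₀ ≤ k) (hkD : k ≤ D) : |hk P k a b| ≤ (D + 1) * (2 / mu) ^ (D + 1) * eps := by
  have h1 := coe_nod (lpo a b ((dpl a b)^[j₀] P)) (lpo_deg (dpl_it_deg a b j₀ P hP) a b) τ le_rfl
    hmu hmu1 hτ hsep (fun i => by
      rw [lpo_eval]
      exact h i) (k - j₀)
  rw [← lpo_it, Polynomial.coeff_iterate_derivative, Nat.sub_add_cancel hk0, nsmul_eq_mul,
    lpo_coeff hP a b hkD, abs_mul, mul_one] at h1
  refine le_trans ?_ h1
  have h2 : (1 : ℝ) ≤ |((k.descFactorial j₀ : ℕ) : ℝ)| := by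
    rw [abs_of_nonneg (Nat.cast_nonneg _)]
    exact_mod_cast Nat.pos_of_ne_zero fun h => by
      rw [Nat.descFactorial_eq_zero_iff_lt] at h
      omega
  exact le_mul_of_one_le_left (abs_nonneg _) h2

/-- The coefficients of order `≥ j` are at most `B`. -/
def CfL (P : MvPolynomial (Fin 2) ℝ) (j : ℕ) (B : ℝ) : Prop :=
  ∀ s : Fin 2 →₀ ℕ, j ≤ s 0 + s 1 → |P.coeff s| ≤ B

theorem cfl_dpl (hP : P.totalDegree ≤ D) {j : ℕ} {B R a b : ℝ} (hB : 0 ≤ B) (hR : 0 ≤ R)
    (ha : |a| ≤ R) (hb : |b| ≤ R) (h : CfL P j B) :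
    CfL (dpl a b P) (j - 1) (2 * R * (D + 1) * B) := by
  classical
  intro s hs
  have key : ∀ (i : Fin 2) (c : ℝ), |c| ≤ R →
      |(C c * pderiv i P).coeff s| ≤ R * (D + 1) * B := by
    intro i c hc
    rw [coeff_C_mul, coeff_pderiv, abs_mul, abs_mul, mul_assoc]
    refine mul_le_mul hc ?_ (by positivity) hR
    rw [mul_comm]
    by_cases h0 : P.coeff (s + Finsupp.single i 1) = 0
    · rw [h0, abs_zero, mul_zero]
      positivity
    · have h1 := deg2 hP (mem_support_iff.2 h0)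
      have h2 : (s + Finsupp.single i 1 : Fin 2 →₀ ℕ) 0 +
          (s + Finsupp.single i 1 : Fin 2 →₀ ℕ) 1 = s 0 + s 1 + 1 := by
        have h01 : i = 0 ∨ i = 1 := by
          fin_cases i
          · exact Or.inl rfl
          · exact Or.inr rfl
        rcases h01 with rfl | rfl
        · simp only [Finsupp.coe_add, Pi.add_apply, Finsupp.single_eq_same]
          rw [Finsupp.single_eq_of_ne (by decide)]
          omega
        · simp only [Finsupp.coe_add, Pi.add_apply, Finsupp.single_eq_same]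
          rw [Finsupp.single_eq_of_ne (by decide)]
          omega
      refine mul_le_mul ?_ (h _ (by omega)) (abs_nonneg _) (by positivity)
      have h3 : s i ≤ D := by
        have h01 : i = 0 ∨ i = 1 := by
          fin_cases i
          · exact Or.inl rfl
          · exact Or.inr rfl
        rcases h01 with rfl | rfl <;> omega
      rw [abs_of_nonneg (by positivity)]
      have : (s i : ℝ) ≤ D := by exact_mod_cast h3
      linarith
  unfold dpl
  rw [coeff_add]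
  refine (abs_add_le _ _).trans ((add_le_add (key 0 a ha) (key 1 b hb)).trans (le_of_eq ?_))
  ring

/-- The iterated derivative in the directions of a list. -/
noncomputable def itp (l : List (ℝ × ℝ)) (P : MvPolynomial (Fin 2) ℝ) : MvPolynomial (Fin 2) ℝ :=
  l.foldr (fun v Q => dpl v.1 v.2 Q) P

theorem itp_cfl {R : ℝ} (hR : 0 ≤ R) {B : ℝ} (hB : 0 ≤ B) {j : ℕ} (l : List (ℝ × ℝ))
    (hl : ∀ v ∈ l, |v.1| ≤ R ∧ |v.2| ≤ R) (hP : P.totalDegree ≤ D) (h : CfL P j B) :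
    (itp l P).totalDegree ≤ D ∧ CfL (itp l P) (j - l.length) ((2 * R * (D + 1)) ^ l.length * B) := by
  induction l with
  | nil =>
    refine ⟨hP, ?_⟩
    rw [List.length_nil, pow_zero, one_mul]
    exact h
  | cons v l ih =>
    have h1 := ih fun v' hv' => hl v' (List.mem_cons_of_mem _ hv')
    have h2 := hl v List.mem_cons_self
    refine ⟨dpl_deg h1.1 v.1 v.2, ?_⟩
    have h3 := cfl_dpl h1.1 (by positivity) hR h2.1 h2.2 h1.2
    have e1 : (2 * R * ((D : ℝ) + 1)) ^ (v :: l).length * B = 2 * R * (D + 1) *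
        ((2 * R * (D + 1)) ^ l.length * B) := by
      rw [List.length_cons, pow_succ]
      ring
    have e2 : j - (v :: l).length = j - l.length - 1 := by
      rw [List.length_cons]
      omega
    rw [e1, e2]
    exact h3

theorem cfl_eval (hP : P.totalDegree ≤ D) {R B : ℝ} (hR : 1 ≤ R) (hB : 0 ≤ B) (h : CfL P 0 B)
    {α β : ℝ} (hα : |α| ≤ R) (hβ : |β| ≤ R) : |eval ![α, β] P| ≤ (D + 1) ^ 2 * (B * R ^ D) := by
  have hR0 : 0 ≤ R := by linarith
  rw [eval2]
  have h1 : ∀ s ∈ P.support, |P.coeff s * (α ^ (s 0) * β ^ (s 1))| ≤ B * R ^ D := by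
    intro s hs
    rw [abs_mul, abs_mul, abs_pow, abs_pow]
    refine mul_le_mul (h s (Nat.zero_le _)) ?_ (by positivity) hB
    calc |α| ^ s 0 * |β| ^ s 1 ≤ R ^ s 0 * R ^ s 1 := by gcongr
      _ = R ^ (s 0 + s 1) := by rw [pow_add]
      _ ≤ R ^ D := pow_le_pow_right₀ hR (deg2 hP hs)
  refine (Finset.abs_sum_le_sum_abs _ _).trans ((Finset.sum_le_sum h1).trans ?_)
  rw [Finset.sum_const, nsmul_eq_mul]
  exact mul_le_mul_of_nonneg_right (card2 hP) (by positivity)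

/-- **Small derivatives of order `j₀` along separated lines: all derivatives of order `≥ j₀` are
small.** -/
theorem itd_small (hP : P.totalDegree ≤ D) (E : Fin (D + 1) → ℝ)
    (τ : Fin (D + 1) → Fin (D + 1) → ℝ) {R mu eps : ℝ} (hR : 1 ≤ R) (hmu : 0 < mu)
    (hmu1 : mu ≤ 1) (hE : ∀ i, |E i| ≤ R) (hsep : ∀ i j, i ≠ j → mu ≤ |E i - E j|)
    (hτ : ∀ i j, |τ i j| ≤ 1) (hsτ : ∀ i j j', j ≠ j' → mu ≤ |τ i j - τ i j'|) {j₀ : ℕ}
    (h : ∀ i j, |eval ![τ i j, τ i j * E i] ((dpl 1 (E i))^[j₀] P)| ≤ eps)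
    (l : List (ℝ × ℝ)) (hl : ∀ v ∈ l, |v.1| ≤ R ∧ |v.2| ≤ R) (hj : j₀ ≤ l.length) {α β : ℝ}
    (hα : |α| ≤ R) (hβ : |β| ≤ R) :
    |eval ![α, β] (itp l P)| ≤
      (D + 1) ^ 4 * 4 ^ (D + 1) * (2 * (D + 1)) ^ l.length *
        (R / mu) ^ (3 * D + 2 + l.length) * eps := by
  have hR0 : 0 < R := by linarith
  have he0 : 0 ≤ eps := (abs_nonneg _).trans (h 0 0)
  have hD0 : (0 : ℝ) ≤ D := Nat.cast_nonneg D
  have h1 : ∀ i, ∀ k, j₀ ≤ k → k ≤ D → |hk P k 1 (E i)| ≤
      (D + 1) * (2 / mu) ^ (D + 1) * eps := fun i k hk1 hkD =>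
    hk_lineJ hP 1 (E i) (τ i) hmu hmu1 (hτ i) (hsτ i) (fun j => by
      rw [mul_one]
      exact h i j) hk1 hkD
  obtain ⟨B, hBd⟩ : ∃ B : ℝ, B = (D + 1) * (2 * R / mu) ^ (D + 1) *
      ((D + 1) * (2 / mu) ^ (D + 1) * eps) := ⟨_, rfl⟩
  have hB : 0 ≤ B := by rw [hBd]; positivity
  have h2 : CfL P j₀ B := by
    intro s hs
    by_cases h0 : P.coeff s = 0
    · rw [h0, abs_zero]
      exact hB
    · rw [hBd]
      exact hk_coe hP E hR hmu hmu1 hE hsep h1 (mem_support_iff.2 h0) hs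
  have h3 := itp_cfl hR0.le hB l hl hP h2
  rw [Nat.sub_eq_zero_of_le hj] at h3
  refine (cfl_eval h3.1 hR (by positivity) h3.2 hα hβ).trans ?_
  have hx : 1 ≤ R / mu := by
    rw [le_div_iff₀ hmu]
    linarith
  have hxR : R ≤ R / mu := by
    rw [le_div_iff₀ hmu]
    nlinarith
  have hxm : 1 / mu ≤ R / mu := div_le_div_of_nonneg_right hR hmu.le
  have e1 : (2 * R / mu) ^ (D + 1) = 2 ^ (D + 1) * (R / mu) ^ (D + 1) := by
    rw [← mul_pow]
    congr 1
    ring
  have e2 : (2 / mu) ^ (D + 1) ≤ 2 ^ (D + 1) * (R / mu) ^ (D + 1) := by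
    rw [← mul_pow]
    refine pow_le_pow_left₀ (by positivity) ?_ _
    have : 2 / mu = 2 * (1 / mu) := by ring
    rw [this]
    exact mul_le_mul_of_nonneg_left hxm (by norm_num)
  have e3 : R ^ D ≤ (R / mu) ^ D := pow_le_pow_left₀ hR0.le hxR _
  have e4 : (4 : ℝ) ^ (D + 1) = 2 ^ (D + 1) * 2 ^ (D + 1) := by
    rw [← mul_pow]
    norm_num
  have e5 : (2 * R * ((D : ℝ) + 1)) ^ l.length ≤ (2 * (D + 1)) ^ l.length *
      (R / mu) ^ l.length := by
    rw [← mul_pow]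
    refine pow_le_pow_left₀ (by positivity) ?_ _
    calc 2 * R * ((D : ℝ) + 1) = 2 * (D + 1) * R := by ring
      _ ≤ 2 * (D + 1) * (R / mu) := mul_le_mul_of_nonneg_left hxR (by positivity)
  have e6 : B ≤ (D + 1) * (2 ^ (D + 1) * (R / mu) ^ (D + 1)) *
      ((D + 1) * (2 ^ (D + 1) * (R / mu) ^ (D + 1)) * eps) := by
    rw [hBd, e1]
    gcongr
  calc ((D : ℝ) + 1) ^ 2 * ((2 * R * (D + 1)) ^ l.length * B * R ^ D)
      ≤ ((D : ℝ) + 1) ^ 2 * (((2 * (D + 1)) ^ l.length * (R / mu) ^ l.length) *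
        ((D + 1) * (2 ^ (D + 1) * (R / mu) ^ (D + 1)) *
      ((D + 1) * (2 ^ (D + 1) * (R / mu) ^ (D + 1)) * eps)) * (R / mu) ^ D) := by
        gcongr
    _ = _ := by
        rw [e4]
        ring

/-! ### The plane -/

variable {m : ℕ}

/-- The derivative in the direction `W`. -/
noncomputable def dP (W : Option (Fin m) → ℝ) (Q : MvPolynomial (Option (Fin m)) ℝ) :
    MvPolynomial (Option (Fin m)) ℝ :=
  ∑ o, C (W o) * pderiv o Q

theorem dP_eval (Q : MvPolynomial (Option (Fin m)) ℝ) (x W : Option (Fin m) → ℝ) :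
    eval x (dP W Q) = dd Q x W := by
  unfold dP dd
  rw [map_sum]
  refine Finset.sum_congr rfl fun o _ => ?_
  rw [map_mul, eval_C, mul_comm]

theorem dP_hs (Q : MvPolynomial (Option (Fin m)) ℝ) (x W V : Option (Fin m) → ℝ) :
    eval x (dP V (dP W Q)) = hs Q x W V := by
  rw [Pool.D2R.hs_comm, dP_eval]
  unfold dd hs dP
  simp only [map_sum, Finset.sum_mul]
  rw [Finset.sum_comm]
  refine Finset.sum_congr rfl fun o _ => ?_
  unfold dd
  rw [Finset.sum_mul]
  refine Finset.sum_congr rfl fun o' _ => ?_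
  rw [pderiv_C_mul, map_mul, eval_C]
  ring

theorem dP_pg (x U₀ U₁ : Option (Fin m) → ℝ) (a b : ℝ) (Q : MvPolynomial (Option (Fin m)) ℝ) :
    aeval (pg x U₀ U₁) (dP (a • U₀ + b • U₁) Q) = dpl a b (aeval (pg x U₀ U₁) Q) := by
  unfold dpl dP
  rw [Pool.GEN.pd_aeval, Pool.GEN.pd_aeval, map_sum, Finset.mul_sum, Finset.mul_sum,
    ← Finset.sum_add_distrib]
  refine Finset.sum_congr rfl fun o _ => ?_
  rw [pd_pg, pd_pg, if_pos (by trivial), if_neg (by decide), map_mul]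
  have hC : aeval (pg x U₀ U₁) (C ((a • U₀ + b • U₁) o) : MvPolynomial (Option (Fin m)) ℝ) =
      C ((a • U₀ + b • U₁) o) := by
    rw [aeval_C]
    rfl
  rw [hC, Pi.add_apply, Pi.smul_apply, Pi.smul_apply, smul_eq_mul, smul_eq_mul, map_add, map_mul,
    map_mul]
  ring

/-- The iterated derivative in the directions `v.1 • U₀ + v.2 • U₁`. -/
noncomputable def itP (U₀ U₁ : Option (Fin m) → ℝ) (l : List (ℝ × ℝ))
    (Q : MvPolynomial (Option (Fin m)) ℝ) : MvPolynomial (Option (Fin m)) ℝ :=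
  l.foldr (fun v Q => dP (v.1 • U₀ + v.2 • U₁) Q) Q

theorem itP_pg (x U₀ U₁ : Option (Fin m) → ℝ) (l : List (ℝ × ℝ))
    (Q : MvPolynomial (Option (Fin m)) ℝ) :
    aeval (pg x U₀ U₁) (itP U₀ U₁ l Q) = itp l (aeval (pg x U₀ U₁) Q) := by
  induction l with
  | nil => rfl
  | cons v l ih =>
    change aeval (pg x U₀ U₁) (dP (v.1 • U₀ + v.2 • U₁) (itP U₀ U₁ l Q)) =
      dpl v.1 v.2 (itp l (aeval (pg x U₀ U₁) Q))
    rw [dP_pg, ih]

theorem dPit_pg (x U₀ U₁ : Option (Fin m) → ℝ) (a b : ℝ) (j : ℕ) :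
    ∀ Q : MvPolynomial (Option (Fin m)) ℝ, aeval (pg x U₀ U₁) ((dP (a • U₀ + b • U₁))^[j] Q) =
      (dpl a b)^[j] (aeval (pg x U₀ U₁) Q) := by
  induction j with
  | zero => exact fun Q => rfl
  | succ j ih =>
    intro Q
    rw [Function.iterate_succ_apply, Function.iterate_succ_apply, ih, dP_pg]

theorem eval_plane (x U₀ U₁ : Option (Fin m) → ℝ) (α β : ℝ)
    (Q : MvPolynomial (Option (Fin m)) ℝ) :
    eval (x + α • U₀ + β • U₁) Q = eval ![α, β] (aeval (pg x U₀ U₁) Q) := by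
  rw [Pool.GEN.eval_aevalσ]
  exact congrArg (fun b => eval b Q) (funext fun o => (eval_pg x U₀ U₁ α β o).symm)

/-- **The plane lemma**, for derivatives of order `≥ j₀`. -/
theorem plane_it (D n : ℕ) : ∃ C : ℝ, 1 ≤ C ∧ ∃ N : ℕ, ∀ {m : ℕ}
    (Q : MvPolynomial (Option (Fin m)) ℝ) (x U₀ U₁ : Option (Fin m) → ℝ) (E : Fin (D + 1) → ℝ)
    (τ : Fin (D + 1) → Fin (D + 1) → ℝ) (R mu eps : ℝ) (j₀ : ℕ), Q.totalDegree ≤ D → 1 ≤ R →
    0 < mu → mu ≤ 1 → (∀ j, |E j| ≤ R) → (∀ j j', j ≠ j' → mu ≤ |E j - E j'|) →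
    (∀ j i, |τ j i| ≤ 1) → (∀ j i i', i ≠ i' → mu ≤ |τ j i - τ j i'|) →
    (∀ j i, |eval (x + τ j i • (U₀ + E j • U₁)) ((dP (U₀ + E j • U₁))^[j₀] Q)| ≤ eps) →
    ∀ (l : List (ℝ × ℝ)), (∀ v ∈ l, |v.1| ≤ R ∧ |v.2| ≤ R) → j₀ ≤ l.length → l.length ≤ n →
    ∀ α β : ℝ, |α| ≤ R → |β| ≤ R →
      |eval (x + α • U₀ + β • U₁) (itP U₀ U₁ l Q)| ≤ C * (R / mu) ^ N * eps := by
  refine ⟨(D + 1) ^ 4 * 4 ^ (D + 1) * (2 * (D + 1)) ^ n, ?_, 3 * D + 2 + n, ?_⟩
  · have hD0 : (0 : ℝ) ≤ D := Nat.cast_nonneg D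
    have h1 : (1 : ℝ) ≤ ((D : ℝ) + 1) ^ 4 := one_le_pow₀ (by linarith)
    have h2 : (1 : ℝ) ≤ 4 ^ (D + 1) := one_le_pow₀ (by norm_num)
    have h3 : (1 : ℝ) ≤ (2 * ((D : ℝ) + 1)) ^ n := one_le_pow₀ (by linarith)
    exact one_le_mul_of_one_le_of_one_le (one_le_mul_of_one_le_of_one_le h1 h2) h3
  intro m Q x U₀ U₁ E τ R mu eps j₀ hQ hR hmu hmu1 hE hsep hτ hsτ h l hl hj hn α β hα hβ
  have he0 : 0 ≤ eps := (abs_nonneg _).trans (h 0 0)
  have hP : (aeval (pg x U₀ U₁) Q).totalDegree ≤ D := by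
    have := Pool.GEN.totalDegree_aevalσ (g := pg x U₀ U₁) (deg_pg x U₀ U₁) hQ
    rwa [one_mul] at this
  rw [eval_plane, itP_pg]
  refine (itd_small (eps := eps) hP E τ hR hmu hmu1 hE hsep hτ hsτ (fun i j => ?_) l hl hj hα
    hβ).trans ?_
  · rw [← dPit_pg, ← eval_plane, one_smul]
    have e1 : x + τ i j • U₀ + (τ i j * E i) • U₁ = x + τ i j • (U₀ + E i • U₁) := by
      rw [smul_add, smul_smul, add_assoc]
    rw [e1]
    exact h i j
  · have hx : 1 ≤ R / mu := by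
      rw [le_div_iff₀ hmu]
      linarith
    have hD0 : (0 : ℝ) ≤ D := Nat.cast_nonneg D
    refine mul_le_mul_of_nonneg_right (mul_le_mul (mul_le_mul_of_nonneg_left
      (pow_le_pow_right₀ (by linarith) hn) (by positivity))
      (pow_le_pow_right₀ hx (by omega)) (by positivity) (by positivity)) he0

/-- **The plane lemma** for the second derivative. -/
theorem plane_hs (D : ℕ) : ∃ C : ℝ, 1 ≤ C ∧ ∃ N : ℕ, ∀ {m : ℕ}
    (Q : MvPolynomial (Option (Fin m)) ℝ) (x U₀ U₁ : Option (Fin m) → ℝ) (E : Fin (D + 1) → ℝ)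
    (τ : Fin (D + 1) → Fin (D + 1) → ℝ) (R mu eps : ℝ), Q.totalDegree ≤ D → 1 ≤ R → 0 < mu →
    mu ≤ 1 → (∀ j, |E j| ≤ R) → (∀ j j', j ≠ j' → mu ≤ |E j - E j'|) → (∀ j i, |τ j i| ≤ 1) →
    (∀ j i i', i ≠ i' → mu ≤ |τ j i - τ j i'|) →
    (∀ j i, |hs Q (x + τ j i • (U₀ + E j • U₁)) (U₀ + E j • U₁) (U₀ + E j • U₁)| ≤ eps) →
    ∀ α β a b a' b' : ℝ, |α| ≤ R → |β| ≤ R → |a| ≤ R → |b| ≤ R → |a'| ≤ R → |b'| ≤ R →
      |hs Q (x + α • U₀ + β • U₁) (a • U₀ + b • U₁) (a' • U₀ + b' • U₁)| ≤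
        C * (R / mu) ^ N * eps := by
  obtain ⟨C, hC, N, h⟩ := plane_it D 2
  refine ⟨C, hC, N, ?_⟩
  intro m Q x U₀ U₁ E τ R mu eps hQ hR hmu hmu1 hE hsep hτ hsτ h1 α β a b a' b' hα hβ ha hb
    ha' hb'
  have h2 := h Q x U₀ U₁ E τ R mu eps 2 hQ hR hmu hmu1 hE hsep hτ hsτ (fun j i => by
      have e1 : (dP (U₀ + E j • U₁))^[2] Q = dP (U₀ + E j • U₁) (dP (U₀ + E j • U₁) Q) := rfl
      rw [e1, dP_hs]
      exact h1 j i) [(a', b'), (a, b)] (fun v hv => by
      rcases List.mem_cons.1 hv with h3 | h3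
      · rw [h3]
        exact ⟨ha', hb'⟩
      · rw [List.mem_singleton.1 h3]
        exact ⟨ha, hb⟩) le_rfl le_rfl α β hα hβ
  have e2 : itP U₀ U₁ [(a', b'), (a, b)] Q = dP (a' • U₀ + b' • U₁) (dP (a • U₀ + b • U₁) Q) := rfl
  rw [e2, dP_hs] at h2
  exact h2

end Pool.F5
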