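import Pool.Agent.H92.M5.Lag
import Pool.Agent.H71.GEN.Poly

/-!
# A polynomial in two variables which is small on lines through the origin

`coe_nod`: the coefficients of a polynomial in one variable which is small at separated nodes.
`hk`: the homogeneous parts. `hk_coe`: if the homogeneous parts of order `≥ j₀` are small at
separated directions, the coefficients of order `≥ j₀` are small.
`dq`: the derivative in a direction. `dq_small`: if the derivatives along separated lines are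
small at separated points, all derivatives are small.
-/

set_option autoImplicit false

namespace Pool.F5

open Finset Real

/-- **The coefficients of a polynomial which is small at separated nodes.** -/
theorem coe_nod {D : ℕ} (f : Polynomial ℝ) (hf : f.natDegree ≤ D) (x : Fin (D + 1) → ℝ)
    {R mu eps : ℝ} (hR : 1 ≤ R) (hmu : 0 < mu) (hmu1 : mu ≤ 1) (hx : ∀ i, |x i| ≤ R)
    (hsep : ∀ i j, i ≠ j → mu ≤ |x i - x j|) (he : ∀ i, |f.eval (x i)| ≤ eps) (k : ℕ) :
    |f.coeff k| ≤ (D + 1) * (2 * R / mu) ^ (D + 1) * eps := by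
  have hR0 : 0 < R := by linarith
  have he0 : 0 ≤ eps := (abs_nonneg _).trans (he 0)
  rcases lt_or_ge D k with hk | hk
  · rw [Polynomial.coeff_eq_zero_of_natDegree_lt (hf.trans_lt hk), abs_zero]
    positivity
  obtain ⟨a, ha⟩ : ∃ a : Fin (D + 1), (a : ℕ) = k := ⟨⟨k, by omega⟩, rfl⟩
  obtain ⟨γ, h1, h2⟩ := Pool.M5.exists_coeffs (D + 1) (fun i => x i / R) (mu / R)
    (div_pos hmu hR0) (by rw [div_le_one hR0]; linarith) (fun i => by
      rw [abs_div, abs_of_pos hR0, div_le_one hR0]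
      exact hx i) (fun i j hij => by
      rw [← sub_div, abs_div, abs_of_pos hR0]
      exact div_le_div_of_nonneg_right (hsep i j hij) hR0.le)
  have h3 : f.coeff a * R ^ (a : ℕ) = ∑ p, γ p a * f.eval (x p) := by
    have h4 : ∀ p, f.eval (x p) = ∑ b : Fin (D + 1), f.coeff b * R ^ (b : ℕ) *
        (x p / R) ^ (b : ℕ) := by
      intro p
      rw [Polynomial.eval_eq_sum_range' (Nat.lt_succ_of_le hf), Finset.sum_range]
      refine Finset.sum_congr rfl fun b _ => ?_
      rw [mul_assoc, ← mul_pow, mul_div_cancel₀ _ hR0.ne']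
    simp_rw [h4, Finset.mul_sum]
    rw [Finset.sum_comm]
    have h5 : ∀ b : Fin (D + 1), ∑ p, γ p a * (f.coeff b * R ^ (b : ℕ) * (x p / R) ^ (b : ℕ)) =
        f.coeff b * R ^ (b : ℕ) * (if a = b then 1 else 0) := by
      intro b
      rw [← h2 a b, Finset.mul_sum]
      exact Finset.sum_congr rfl fun p _ => by ring
    rw [Finset.sum_congr rfl fun b _ => h5 b]
    simp
  have h4 : |f.coeff a| ≤ |f.coeff a * R ^ (a : ℕ)| := by
    rw [abs_mul, abs_of_pos (pow_pos hR0 _)]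
    exact le_mul_of_one_le_right (abs_nonneg _) (one_le_pow₀ hR)
  rw [← ha]
  refine h4.trans ?_
  rw [h3]
  refine (Finset.abs_sum_le_sum_abs _ _).trans ?_
  have h5 : ∀ p ∈ (univ : Finset (Fin (D + 1))), |γ p a * f.eval (x p)| ≤
      (2 * R / mu) ^ (D + 1) * eps := by
    intro p _
    rw [abs_mul]
    refine mul_le_mul ?_ (he p) (abs_nonneg _) (by positivity)
    have h6 := h1 p a
    rwa [div_div_eq_mul_div] at h6
  refine (Finset.sum_le_sum h5).trans ?_
  rw [Finset.sum_const, Finset.card_univ, Fintype.card_fin, nsmul_eq_mul]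
  push_cast
  linarith

open MvPolynomial

variable {D : ℕ} {P : MvPolynomial (Fin 2) ℝ}

/-- The homogeneous parts. -/
noncomputable def hk (P : MvPolynomial (Fin 2) ℝ) (k : ℕ) (a b : ℝ) : ℝ :=
  ∑ s ∈ P.support with s 0 + s 1 = k, P.coeff s * (a ^ (s 0) * b ^ (s 1))

/-- The homogeneous part on a line of directions. -/
noncomputable def rk (P : MvPolynomial (Fin 2) ℝ) (k : ℕ) : Polynomial ℝ :=
  ∑ s ∈ P.support with s 0 + s 1 = k, Polynomial.monomial (s 1) (P.coeff s)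

theorem rk_eval (k : ℕ) (E : ℝ) : (rk P k).eval E = hk P k 1 E := by
  unfold rk hk
  rw [Polynomial.eval_finsetSum]
  refine Finset.sum_congr rfl fun s _ => ?_
  rw [Polynomial.eval_monomial, one_pow, one_mul]

theorem deg2 (hP : P.totalDegree ≤ D) {s : Fin 2 →₀ ℕ} (hs : s ∈ P.support) :
    s 0 + s 1 ≤ D := by
  have h1 := (le_totalDegree hs).trans hP
  rw [Finsupp.sum_fintype _ _ (fun _ => rfl), Fin.sum_univ_two] at h1
  exact h1

theorem ext2 {s s' : Fin 2 →₀ ℕ} (h0 : s 0 = s' 0) (h1 : s 1 = s' 1) : s = s' := by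
  ext i
  fin_cases i
  · exact h0
  · exact h1

theorem rk_deg (hP : P.totalDegree ≤ D) (k : ℕ) : (rk P k).natDegree ≤ D := by
  unfold rk
  refine Polynomial.natDegree_sum_le_of_forall_le _ _ fun s hs => ?_
  refine (Polynomial.natDegree_monomial_le _).trans ?_
  have := deg2 hP (Finset.mem_filter.1 hs).1
  omega

theorem rk_coeff {s : Fin 2 →₀ ℕ} (hs : s ∈ P.support) :
    (rk P (s 0 + s 1)).coeff (s 1) = P.coeff s := by
  classical
  unfold rk
  rw [Polynomial.finsetSum_coeff, Finset.sum_eq_single s]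
  · rw [Polynomial.coeff_monomial, if_pos rfl]
  · intro s' hs' hne
    rw [Polynomial.coeff_monomial, if_neg]
    intro h
    have h1 := (Finset.mem_filter.1 hs').2
    exact hne (ext2 (by omega) h)
  · intro h
    exact (h (Finset.mem_filter.2 ⟨hs, by trivial⟩)).elim

/-- **Small homogeneous parts at separated directions**: small coefficients. -/
theorem hk_coe (hP : P.totalDegree ≤ D) (E : Fin (D + 1) → ℝ) {R mu eps : ℝ} (hR : 1 ≤ R)
    (hmu : 0 < mu) (hmu1 : mu ≤ 1) (hE : ∀ i, |E i| ≤ R)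
    (hsep : ∀ i j, i ≠ j → mu ≤ |E i - E j|) {j₀ : ℕ}
    (h : ∀ i, ∀ k, j₀ ≤ k → k ≤ D → |hk P k 1 (E i)| ≤ eps) {s : Fin 2 →₀ ℕ}
    (hs : s ∈ P.support) (hs0 : j₀ ≤ s 0 + s 1) :
    |P.coeff s| ≤ (D + 1) * (2 * R / mu) ^ (D + 1) * eps := by
  rw [← rk_coeff hs]
  exact coe_nod _ (rk_deg hP _) E hR hmu hmu1 hE hsep (fun i => by
    rw [rk_eval]
    exact h i _ hs0 (deg2 hP hs)) _

theorem eval2 (α β : ℝ) : eval ![α, β] P = ∑ s ∈ P.support, P.coeff s * (α ^ (s 0) * β ^ (s 1)) := by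
  rw [eval_eq']
  refine Finset.sum_congr rfl fun s _ => ?_
  rw [Fin.prod_univ_two]
  rfl

/-- The derivative at `(α, β)` in the direction `(a, b)`. -/
noncomputable def dq (P : MvPolynomial (Fin 2) ℝ) (α β a b : ℝ) : ℝ :=
  eval ![α, β] (pderiv 0 P) * a + eval ![α, β] (pderiv 1 P) * b

theorem pd2 (i : Fin 2) (α β : ℝ) : eval ![α, β] (pderiv i P) =
    ∑ s ∈ P.support, P.coeff s * (if i = 0 then (s 0 : ℝ) * α ^ (s 0 - 1) * β ^ (s 1) else
      (s 1 : ℝ) * (α ^ (s 0) * β ^ (s 1 - 1))) := by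
  classical
  have h1 : pderiv i P = ∑ s ∈ P.support, pderiv i (monomial s (P.coeff s)) := by
    conv_lhs => rw [P.as_sum]
    rw [map_sum]
  rw [h1, map_sum]
  refine Finset.sum_congr rfl fun s _ => ?_
  rw [pderiv_monomial, eval_monomial, Finsupp.prod_fintype _ _ (fun _ => pow_zero _),
    Fin.prod_univ_two, mul_assoc]
  congr 1
  have e0 : (![α, β] : Fin 2 → ℝ) 0 = α := rfl
  have e1 : (![α, β] : Fin 2 → ℝ) 1 = β := rfl
  rw [e0, e1]
  have h01 : i = 0 ∨ i = 1 := by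
    fin_cases i
    · exact Or.inl rfl
    · exact Or.inr rfl
  rcases h01 with rfl | rfl
  · rw [if_pos rfl]
    simp only [Finsupp.coe_tsub, Pi.sub_apply, Finsupp.single_eq_same]
    rw [Finsupp.single_eq_of_ne (by decide), Nat.sub_zero]
    ring
  · rw [if_neg (by decide)]
    simp only [Finsupp.coe_tsub, Pi.sub_apply, Finsupp.single_eq_same]
    rw [Finsupp.single_eq_of_ne (by decide), Nat.sub_zero]

theorem dq_eq (α β a b : ℝ) : dq P α β a b = ∑ s ∈ P.support, P.coeff s *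
    ((s 0 : ℝ) * α ^ (s 0 - 1) * β ^ (s 1) * a + (s 1 : ℝ) * (α ^ (s 0) * β ^ (s 1 - 1)) * b) := by
  unfold dq
  rw [pd2, pd2, Finset.sum_mul, Finset.sum_mul, ← Finset.sum_add_distrib]
  refine Finset.sum_congr rfl fun s _ => ?_
  rw [if_pos (by trivial), if_neg (by decide)]
  ring

theorem pw1 (n : ℕ) (τ a : ℝ) : (n : ℝ) * (τ * a) ^ (n - 1) * a = n * (τ ^ (n - 1) * a ^ n) := by
  rcases n with - | n
  · simp
  · rw [Nat.add_sub_cancel, mul_pow, pow_succ a n]
    ring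

/-- The derivative along a line through the origin. -/
theorem dq_line (hP : P.totalDegree ≤ D) (τ a b : ℝ) : dq P (τ * a) (τ * b) a b =
    ∑ k ∈ range (D + 1), (k : ℝ) * hk P k a b * τ ^ (k - 1) := by
  rw [dq_eq]
  have h1 : ∀ s ∈ P.support, P.coeff s * ((s 0 : ℝ) * (τ * a) ^ (s 0 - 1) * (τ * b) ^ (s 1) * a +
      (s 1 : ℝ) * ((τ * a) ^ (s 0) * (τ * b) ^ (s 1 - 1)) * b) =
      ((s 0 + s 1 : ℕ) : ℝ) * (P.coeff s * (a ^ (s 0) * b ^ (s 1))) * τ ^ (s 0 + s 1 - 1) := by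
    intro s _
    have e1 : (s 0 : ℝ) * (τ * a) ^ (s 0 - 1) * (τ * b) ^ (s 1) * a =
        (s 0 : ℝ) * (a ^ (s 0) * b ^ (s 1)) * τ ^ (s 0 + s 1 - 1) := by
      rcases h : s 0 with - | n
      · simp
      · rw [Nat.add_sub_cancel, show n + 1 + s 1 - 1 = n + s 1 by omega, mul_pow, mul_pow,
          pow_succ a n, pow_add]
        ring
    have e2 : (s 1 : ℝ) * ((τ * a) ^ (s 0) * (τ * b) ^ (s 1 - 1)) * b =
        (s 1 : ℝ) * (a ^ (s 0) * b ^ (s 1)) * τ ^ (s 0 + s 1 - 1) := by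
      rcases h : s 1 with - | n
      · simp
      · rw [Nat.add_sub_cancel, show s 0 + (n + 1) - 1 = s 0 + n by omega, mul_pow, mul_pow,
          pow_succ b n, pow_add]
        ring
    rw [e1, e2]
    push_cast
    ring
  rw [Finset.sum_congr rfl h1]
  unfold hk
  rw [← Finset.sum_fiberwise_of_maps_to (s := P.support) (t := range (D + 1))
    (g := fun s => s 0 + s 1) (fun s hs => Finset.mem_range.2 (by
      have := deg2 hP hs
      omega))]
  refine Finset.sum_congr rfl fun k _ => ?_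
  rw [Finset.mul_sum, Finset.sum_mul]
  refine Finset.sum_congr rfl fun s hs => ?_
  rw [(Finset.mem_filter.1 hs).2]

/-- Small derivatives along a line: small homogeneous parts. -/
theorem hk_line (hP : P.totalDegree ≤ D) (a b : ℝ) (τ : Fin (D + 1) → ℝ) {mu eps : ℝ}
    (hmu : 0 < mu) (hmu1 : mu ≤ 1) (hτ : ∀ i, |τ i| ≤ 1) (hsep : ∀ i j, i ≠ j → mu ≤ |τ i - τ j|)
    (h : ∀ i, |dq P (τ i * a) (τ i * b) a b| ≤ eps) {k : ℕ} (hk1 : 1 ≤ k) (hkD : k ≤ D) :
    |hk P k a b| ≤ (D + 1) * (2 / mu) ^ (D + 1) * eps := by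
  classical
  obtain ⟨f, hf⟩ : ∃ f : Polynomial ℝ, f = ∑ k ∈ range (D + 1),
      Polynomial.monomial (k - 1) ((k : ℝ) * hk P k a b) := ⟨_, rfl⟩
  have hfe : ∀ z, f.eval z = dq P (z * a) (z * b) a b := by
    intro z
    rw [dq_line hP, hf, Polynomial.eval_finsetSum]
    exact Finset.sum_congr rfl fun k _ => Polynomial.eval_monomial
  have hfd : f.natDegree ≤ D := by
    rw [hf]
    refine Polynomial.natDegree_sum_le_of_forall_le _ _ fun k hk => ?_
    refine (Polynomial.natDegree_monomial_le _).trans ?_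
    have := Finset.mem_range.1 hk
    omega
  have hfc : f.coeff (k - 1) = (k : ℝ) * hk P k a b := by
    rw [hf, Polynomial.finsetSum_coeff, Finset.sum_eq_single k]
    · rw [Polynomial.coeff_monomial, if_pos rfl]
    · intro k' _ hne
      rw [Polynomial.coeff_monomial]
      rcases Nat.eq_zero_or_pos k' with h0 | h0
      · rw [h0]
        simp
      · rw [if_neg (by omega)]
    · intro h
      exact absurd (Finset.mem_range.2 (by omega)) h
  have h1 := coe_nod f hfd τ le_rfl hmu hmu1 hτ hsep (fun i => by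
    rw [hfe]
    exact h i) (k - 1)
  rw [hfc, abs_mul, mul_one] at h1
  refine le_trans ?_ h1
  have h2 : (1 : ℝ) ≤ |(k : ℝ)| := by
    rw [abs_of_nonneg (Nat.cast_nonneg k)]
    exact_mod_cast hk1
  exact le_mul_of_one_le_left (abs_nonneg _) h2

theorem card2 (hP : P.totalDegree ≤ D) : (P.support.card : ℝ) ≤ ((D : ℝ) + 1) ^ 2 := by
  classical
  have h1 : P.support.card ≤ (range (D + 1) ×ˢ range (D + 1)).card := by
    refine Finset.card_le_card_of_injOn (fun s => (s 0, s 1)) (fun s hs => ?_) ?_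
    · have := deg2 hP hs
      simp only [coe_product, coe_range, Set.mem_prod, Set.mem_Iio]
      omega
    · intro s _ s' _ h
      have h2 := Prod.ext_iff.1 h
      exact ext2 h2.1 h2.2
  rw [Finset.card_product, Finset.card_range] at h1
  calc (P.support.card : ℝ) ≤ (((D + 1) * (D + 1) : ℕ) : ℝ) := by exact_mod_cast h1
    _ = _ := by push_cast; ring

/-- Small coefficients: small derivatives. -/
theorem dq_le (hP : P.totalDegree ≤ D) {R B : ℝ} (hR : 1 ≤ R) (hB : 0 ≤ B)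
    (h : ∀ s ∈ P.support, 1 ≤ s 0 + s 1 → |P.coeff s| ≤ B) {α β a b : ℝ} (hα : |α| ≤ R)
    (hβ : |β| ≤ R) (ha : |a| ≤ R) (hb : |b| ≤ R) :
    |dq P α β a b| ≤ (D + 1) ^ 2 * (B * (D * R ^ D)) := by
  have hR0 : 0 ≤ R := by linarith
  rw [dq_eq]
  have h1 : ∀ s ∈ P.support, |P.coeff s * ((s 0 : ℝ) * α ^ (s 0 - 1) * β ^ (s 1) * a +
      (s 1 : ℝ) * (α ^ (s 0) * β ^ (s 1 - 1)) * b)| ≤ B * (D * R ^ D) := by
    intro s hs
    have hd := deg2 hP hs
    have e1 : |(s 0 : ℝ) * α ^ (s 0 - 1) * β ^ (s 1) * a| ≤ s 0 * R ^ D := by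
      rcases h0 : s 0 with - | n
      · simp
      · rw [Nat.add_sub_cancel, abs_mul, abs_mul, abs_mul, abs_pow, abs_pow,
          abs_of_nonneg (Nat.cast_nonneg (α := ℝ) (n + 1)), mul_assoc, mul_assoc]
        refine mul_le_mul_of_nonneg_left ?_ (Nat.cast_nonneg _)
        calc |α| ^ n * (|β| ^ s 1 * |a|) ≤ R ^ n * (R ^ s 1 * R) := by
              gcongr
          _ = R ^ (n + s 1 + 1) := by ring
          _ ≤ R ^ D := pow_le_pow_right₀ hR (by omega)
    have e2 : |(s 1 : ℝ) * (α ^ (s 0) * β ^ (s 1 - 1)) * b| ≤ s 1 * R ^ D := by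
      rcases h0 : s 1 with - | n
      · simp
      · rw [Nat.add_sub_cancel, abs_mul, abs_mul, abs_mul, abs_pow, abs_pow,
          abs_of_nonneg (Nat.cast_nonneg (α := ℝ) (n + 1)), mul_assoc]
        refine mul_le_mul_of_nonneg_left ?_ (Nat.cast_nonneg _)
        calc |α| ^ s 0 * |β| ^ n * |b| ≤ R ^ s 0 * R ^ n * R := by
              gcongr
          _ = R ^ (s 0 + n + 1) := by ring
          _ ≤ R ^ D := pow_le_pow_right₀ hR (by omega)
    rcases Nat.eq_zero_or_pos (s 0 + s 1) with h0 | h0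
    · have h2 : s 0 = 0 := by omega
      have h3 : s 1 = 0 := by omega
      rw [h2, h3]
      simp only [Nat.cast_zero, zero_mul, zero_add, mul_zero, abs_zero]
      positivity
    · rw [abs_mul]
      refine mul_le_mul (h s hs h0) ?_ (abs_nonneg _) hB
      refine (abs_add_le _ _).trans ((add_le_add e1 e2).trans ?_)
      rw [← add_mul]
      refine mul_le_mul_of_nonneg_right ?_ (by positivity)
      exact_mod_cast hd
  refine (Finset.abs_sum_le_sum_abs _ _).trans ((Finset.sum_le_sum h1).trans ?_)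
  rw [Finset.sum_const, nsmul_eq_mul]
  exact mul_le_mul_of_nonneg_right (card2 hP) (by positivity)

/-- **Small derivatives along separated lines: all derivatives are small.** -/
theorem dq_small (hP : P.totalDegree ≤ D) (E : Fin (D + 1) → ℝ)
    (τ : Fin (D + 1) → Fin (D + 1) → ℝ) {R mu eps : ℝ} (hR : 1 ≤ R) (hmu : 0 < mu)
    (hmu1 : mu ≤ 1) (hE : ∀ i, |E i| ≤ R) (hsep : ∀ i j, i ≠ j → mu ≤ |E i - E j|)
    (hτ : ∀ i j, |τ i j| ≤ 1) (hsτ : ∀ i j j', j ≠ j' → mu ≤ |τ i j - τ i j'|)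
    (h : ∀ i j, |dq P (τ i j) (τ i j * E i) 1 (E i)| ≤ eps) {α β a b : ℝ} (hα : |α| ≤ R)
    (hβ : |β| ≤ R) (ha : |a| ≤ R) (hb : |b| ≤ R) :
    |dq P α β a b| ≤ (D + 1) ^ 5 * 4 ^ (D + 1) * (R / mu) ^ (3 * D + 2) * eps := by
  have hR0 : 0 < R := by linarith
  have he0 : 0 ≤ eps := (abs_nonneg _).trans (h 0 0)
  have h1 : ∀ i, ∀ k, 1 ≤ k → k ≤ D → |hk P k 1 (E i)| ≤
      (D + 1) * (2 / mu) ^ (D + 1) * eps := fun i k hk1 hkD =>
    hk_line hP 1 (E i) (τ i) hmu hmu1 (hτ i) (hsτ i) (fun j => by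
      rw [mul_one]
      exact h i j) hk1 hkD
  have h2 : ∀ s ∈ P.support, 1 ≤ s 0 + s 1 → |P.coeff s| ≤
      (D + 1) * (2 * R / mu) ^ (D + 1) * ((D + 1) * (2 / mu) ^ (D + 1) * eps) :=
    fun s hs hs1 => hk_coe hP E hR hmu hmu1 hE hsep h1 hs hs1
  refine (dq_le hP hR (by positivity) h2 hα hβ ha hb).trans ?_
  have hx : 1 ≤ R / mu := by
    rw [le_div_iff₀ hmu]
    linarith
  have hxR : R ≤ R / mu := by
    rw [le_div_iff₀ hmu]
    nlinarith
  have hxm : 1 / mu ≤ R / mu := div_le_div_of_nonneg_right hR hmu.le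
  have hD0 : (0 : ℝ) ≤ D := Nat.cast_nonneg D
  have e1 : (2 * R / mu) ^ (D + 1) = 2 ^ (D + 1) * (R / mu) ^ (D + 1) := by
    rw [← mul_pow]
    congr 1
    ring
  have e2 : (2 / mu) ^ (D + 1) ≤ 2 ^ (D + 1) * (R / mu) ^ (D + 1) := by
    rw [← mul_pow]
    refine pow_le_pow_left₀ (by positivity) ?_ _
    have : 2 / mu = 2 * (1 / mu) := by ring
    rw [this]
    exact mul_le_mul_of_nonneg_left hxm (by norm_num)
  have e3 : R ^ D ≤ (R / mu) ^ D := pow_le_pow_left₀ hR0.le hxR _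
  have e4 : (4 : ℝ) ^ (D + 1) = 2 ^ (D + 1) * 2 ^ (D + 1) := by
    rw [← mul_pow]
    norm_num
  calc ((D : ℝ) + 1) ^ 2 * ((D + 1) * (2 * R / mu) ^ (D + 1) *
        ((D + 1) * (2 / mu) ^ (D + 1) * eps) * (D * R ^ D))
      ≤ ((D : ℝ) + 1) ^ 2 * ((D + 1) * (2 ^ (D + 1) * (R / mu) ^ (D + 1)) *
        ((D + 1) * (2 ^ (D + 1) * (R / mu) ^ (D + 1)) * eps) * ((D + 1) * (R / mu) ^ D)) := by
        rw [e1]
        gcongr
        linarith
    _ = _ := by
        rw [e4]
        ring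

end Pool.F5
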