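import Pool.Agent.H31.F5.Arr
import Pool.Agent.H23.D2.Nat

/-!
# The plane lemma

A polynomial whose derivatives along `D + 1` separated lines of a plane are small at `D + 1`
separated points of each line has small derivatives on the plane.
-/

set_option autoImplicit false

namespace Pool.F5

open Finset Real MvPolynomial
open Pool.D2R (dd dd_add dd_smul)

variable {m : ℕ}

/-- The substitution of the coordinates of the plane through `x`. -/
noncomputable def pg (x U₀ U₁ : Option (Fin m) → ℝ) (o : Option (Fin m)) :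
    MvPolynomial (Fin 2) ℝ :=
  C (x o) + C (U₀ o) * X 0 + C (U₁ o) * X 1

theorem eval_pg (x U₀ U₁ : Option (Fin m) → ℝ) (α β : ℝ) (o : Option (Fin m)) :
    eval ![α, β] (pg x U₀ U₁ o) = (x + α • U₀ + β • U₁) o := by
  unfold pg
  simp only [map_add, map_mul, eval_C, eval_X, Pi.add_apply, Pi.smul_apply, smul_eq_mul]
  have e0 : (![α, β] : Fin 2 → ℝ) 0 = α := rfl
  have e1 : (![α, β] : Fin 2 → ℝ) 1 = β := rfl
  rw [e0, e1]
  ring

theorem deg_pg (x U₀ U₁ : Option (Fin m) → ℝ) (o : Option (Fin m)) :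
    (pg x U₀ U₁ o).totalDegree ≤ 1 := by
  unfold pg
  refine (totalDegree_add _ _).trans (max_le ((totalDegree_add _ _).trans (max_le ?_ ?_)) ?_)
  · rw [totalDegree_C]
    exact Nat.zero_le _
  · refine (totalDegree_mul _ _).trans ?_
    rw [totalDegree_C, totalDegree_X]
  · refine (totalDegree_mul _ _).trans ?_
    rw [totalDegree_C, totalDegree_X]

theorem pd_pg (x U₀ U₁ : Option (Fin m) → ℝ) (o : Option (Fin m)) (i : Fin 2) :
    pderiv i (pg x U₀ U₁ o) = C (if i = 0 then U₀ o else U₁ o) := by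
  classical
  have h01 : i = 0 ∨ i = 1 := by
    fin_cases i
    · exact Or.inl rfl
    · exact Or.inr rfl
  unfold pg
  rcases h01 with rfl | rfl
  · rw [if_pos rfl, map_add, map_add, pderiv_C, pderiv_C_mul, pderiv_C_mul, pderiv_X_self,
      pderiv_X_of_ne (by decide)]
    simp
  · rw [if_neg (by decide), map_add, map_add, pderiv_C, pderiv_C_mul, pderiv_C_mul, pderiv_X_self,
      pderiv_X_of_ne (by decide)]
    simp

/-- The derivative on the plane. -/
theorem dd_pg (Q : MvPolynomial (Option (Fin m)) ℝ) (x U₀ U₁ : Option (Fin m) → ℝ)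
    (α β a b : ℝ) : dd Q (x + α • U₀ + β • U₁) (a • U₀ + b • U₁) =
      dq (aeval (pg x U₀ U₁) Q) α β a b := by
  have h1 : ∀ i : Fin 2, eval ![α, β] (pderiv i (aeval (pg x U₀ U₁) Q)) =
      dd Q (x + α • U₀ + β • U₁) (if i = 0 then U₀ else U₁) := by
    intro i
    rw [Pool.GEN.pd_aeval, map_sum]
    unfold dd
    refine Finset.sum_congr rfl fun o _ => ?_
    rw [map_mul, Pool.GEN.eval_aevalσ, pd_pg, eval_C]
    congr 1
    · congr 1
      exact congrArg _ (funext fun o' => eval_pg x U₀ U₁ α β o')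
    · split_ifs <;> rfl
  unfold dq
  rw [h1, h1, if_pos (by trivial), if_neg (by decide), dd_add, dd_smul, dd_smul]
  ring

/-- **The plane lemma.** -/
theorem plane_two (D : ℕ) : ∃ C : ℝ, 1 ≤ C ∧ ∃ N : ℕ, ∀ {m : ℕ}
    (Q : MvPolynomial (Option (Fin m)) ℝ) (x U₀ U₁ : Option (Fin m) → ℝ) (E : Fin (D + 1) → ℝ)
    (τ : Fin (D + 1) → Fin (D + 1) → ℝ) (R mu eps : ℝ), Q.totalDegree ≤ D → 1 ≤ R → 0 < mu →
    mu ≤ 1 → (∀ j, |E j| ≤ R) → (∀ j j', j ≠ j' → mu ≤ |E j - E j'|) → (∀ j i, |τ j i| ≤ 1) →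
    (∀ j i i', i ≠ i' → mu ≤ |τ j i - τ j i'|) →
    (∀ j i, |dd Q (x + τ j i • (U₀ + E j • U₁)) (U₀ + E j • U₁)| ≤ eps) →
    ∀ α β a b : ℝ, |α| ≤ R → |β| ≤ R → |a| ≤ R → |b| ≤ R →
      |dd Q (x + α • U₀ + β • U₁) (a • U₀ + b • U₁)| ≤ C * (R / mu) ^ N * eps := by
  refine ⟨(D + 1) ^ 5 * 4 ^ (D + 1), ?_, 3 * D + 2, ?_⟩
  · have h1 : (1 : ℝ) ≤ ((D : ℝ) + 1) ^ 5 := one_le_pow₀ (by
      have : (0 : ℝ) ≤ D := Nat.cast_nonneg D
      linarith)
    have h2 : (1 : ℝ) ≤ 4 ^ (D + 1) := one_le_pow₀ (by norm_num)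
    exact one_le_mul_of_one_le_of_one_le h1 h2
  intro m Q x U₀ U₁ E τ R mu eps hQ hR hmu hmu1 hE hsep hτ hsτ h α β a b hα hβ ha hb
  rw [dd_pg]
  have hP : (aeval (pg x U₀ U₁) Q).totalDegree ≤ D := by
    have := Pool.GEN.totalDegree_aevalσ (g := pg x U₀ U₁) (deg_pg x U₀ U₁) hQ
    rwa [one_mul] at this
  refine dq_small hP E τ hR hmu hmu1 hE hsep hτ hsτ (fun i j => ?_) hα hβ ha hb
  rw [← dd_pg, one_smul]
  have e1 : x + τ i j • U₀ + (τ i j * E i) • U₁ = x + τ i j • (U₀ + E i • U₁) := by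
    rw [smul_add, smul_smul, add_assoc]
  rw [e1]
  exact h i j

end Pool.F5
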